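import Pool.Agent.H721.AR.WinQ

/-!
# Project AR (helper560), part T1W: both signs with a positive proportion, abstract form
-/

set_option autoImplicit false

namespace Pool.Agent.H721.AR

open Polynomial Finset
open scoped Classical
open Pool.Agent.H694.Typ
open Pool.Agent.H985.Chow (mob)
open Pool.Agent.H985.Par (Sft S_sw)
open Pool.Agent.H560.SI (Smt S_vl)
open Pool.Agent.H560.AR
open Pool.Agent.H996.SI

variable {K : Type} [Field K] [Fintype K]

/-- every polynomial is counted at most once -/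
theorem cntQ [CharP K 2] {L z : ℕ} {Q : K[X]} {A G : Finset K[X]} (Fs : K[X] → K[X]) (σ : ℤ)
    (hQ : Q ≠ 0)
    (hF : ∀ s ∈ A, derivative (Q * Fs s) = s ^ 2 ∧
      ∀ t : K[X], t.degree < (L : WithBot ℕ) → Fs s + Q * t ^ 2 ∈ G) :
    ∑ s ∈ A, ((Sf Q (Fs s) L z).filter (fun t => mob (Fs s + Q * t ^ 2) = σ)).card ≤
      (G.filter (fun f => mob f = σ)).card := by
  rw [← card_sigma]
  refine card_le_card_of_injOn (fun p => Fs p.1 + Q * p.2 ^ 2) ?_ ?_
  · rintro ⟨s, t⟩ hp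
    rw [Finset.mem_coe, mem_sigma, mem_filter, Sf, mem_filter] at hp
    rw [Finset.mem_coe, mem_filter]
    exact ⟨(hF s hp.1).2 t (mem_Pn.1 hp.2.1.1), hp.2.2⟩
  · rintro ⟨s, t⟩ hp ⟨s', t'⟩ hp' h
    rw [Finset.mem_coe, mem_sigma, mem_filter, Sf, mem_filter] at hp hp'
    have h1 : Fs s + Q * t ^ 2 = Fs s' + Q * t' ^ 2 := h
    have h2 : s ^ 2 = s' ^ 2 := by
      have h3 := der_add Q (Fs s) t
      have h4 := der_add Q (Fs s') t'
      rw [(hF s hp.1).1] at h3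
      rw [(hF s' hp'.1).1] at h4
      rw [← h3, ← h4, h1]
    have h3 : s = s' := sq_inj' h2
    subst h3
    have h4 : Q * t ^ 2 = Q * t' ^ 2 := add_left_cancel h1
    have h5 : t = t' := sq_inj' (mul_left_cancel₀ hQ h4)
    rw [h5]

/-- the values with a square factor are rare -/
theorem nsqQ (hr : S_rtQ) [CharP K 2] {L z : ℕ} {Q : K[X]} {A : Finset K[X]} {C₀ : ℝ}
    (hC₀ : 0 ≤ C₀) (Fs : K[X] → K[X])
    (hA : ∀ s ∈ A, Smt (L / 8) s ∧ IsCoprime Q s)
    (hAd : ∀ P : K[X], P.Monic → Irreducible P → P.natDegree ≤ L / 8 →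
        ((A.filter (fun s => P ∣ s)).card : ℝ) * (Fintype.card K : ℝ) ^ P.natDegree ≤
          C₀ * A.card)
    (hF0 : ∀ s ∈ A, ∀ t ∈ Pn K L, Fs s + Q * t ^ 2 ≠ 0)
    (hd : ∀ s ∈ A, derivative (Q * Fs s) = s ^ 2) :
    ∑ s ∈ A, (((Sf Q (Fs s) L z).filter (fun t => mob (Fs s + Q * t ^ 2) = 0)).card : ℝ) ≤
      C₀ * A.card * (Fintype.card K : ℝ) ^ L * wt K z := by
  have hq := q_ge (k := K)
  set q : ℝ := (Fintype.card K : ℝ) with hqd
  have h1 : ∀ s ∈ A,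
      (((Sf Q (Fs s) L z).filter (fun t => mob (Fs s + Q * t ^ 2) = 0)).card : ℝ) ≤
      ∑ P ∈ (PU K (L / 8)).filter (fun P => z < P.natDegree),
        if P ∣ s then q ^ L * wt K P.natDegree else 0 := by
    intro s hs
    have hcl : ∀ P : K[X], ∃ r : K[X], P.Monic ∧ Irreducible P ∧ ¬ P ∣ Q →
        ∀ t : K[X], P ∣ Fs s + Q * t ^ 2 ↔ P ∣ t - r := by
      intro P
      by_cases h : P.Monic ∧ Irreducible P ∧ ¬ P ∣ Q
      · obtain ⟨r, hr1, hr2⟩ := hr K Q (Fs s) P h.1 h.2.1 h.2.2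
        exact ⟨r, fun _ => hr2⟩
      · exact ⟨0, fun h' => absurd h' h⟩
    choose rr hrr using hcl
    obtain ⟨hsm, hcop⟩ := hA s hs
    have h2 : (Sf Q (Fs s) L z).filter (fun t => mob (Fs s + Q * t ^ 2) = 0) ⊆
        ((PU K (L / 8)).filter (fun P => z < P.natDegree ∧ P ∣ s)).biUnion
          (fun P => (Pn K L).filter (fun t => P ∣ t - rr P)) := by
      intro t ht
      rw [mem_filter, Sf, mem_filter] at ht
      obtain ⟨P, hP, hPi, hPd⟩ := exists_sq (hF0 s hs t ht.1.1) (mob_zero ht.2)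
      have hPd' : P ∣ Fs s + Q * t ^ 2 := (dvd_pow_self P two_ne_zero).trans hPd
      have hPs : P ∣ s := dvd_s hPi hPd (by rw [der_add, hd s hs])
      have hPL : P.natDegree ≤ L / 8 := hsm P hP hPi hPs
      have hPQ : ¬ P ∣ Q := fun h => hPi.not_isUnit (hcop.isUnit_of_dvd' h hPs)
      rw [mem_biUnion]
      refine ⟨P, ?_, ?_⟩
      · rw [mem_filter, mem_PU]
        exact ⟨⟨hP, hPi, hPL⟩, ht.1.2 P hP hPi hPd', hPs⟩
      · rw [mem_filter]
        exact ⟨ht.1.1, (hrr P ⟨hP, hPi, hPQ⟩ t).1 hPd'⟩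
    have h3 := (card_le_card h2).trans card_biUnion_le
    have h4 : (((Sf Q (Fs s) L z).filter (fun t => mob (Fs s + Q * t ^ 2) = 0)).card : ℝ) ≤
        ∑ P ∈ (PU K (L / 8)).filter (fun P => z < P.natDegree ∧ P ∣ s),
          (((Pn K L).filter (fun t => P ∣ t - rr P)).card : ℝ) := by exact_mod_cast h3
    refine h4.trans ?_
    rw [← filter_filter, ← sum_filter]
    refine sum_le_sum fun P hP => ?_
    rw [mem_filter, mem_filter, mem_PU] at hP
    exact class_card' hP.1.1.1 (by omega) _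
  refine (sum_le_sum h1).trans ?_
  rw [sum_comm]
  have h2 : ∀ P ∈ (PU K (L / 8)).filter (fun P => z < P.natDegree),
      (∑ s ∈ A, if P ∣ s then q ^ L * wt K P.natDegree else 0) ≤
      C₀ * A.card * q ^ L * wt K P.natDegree ^ 2 := by
    intro P hP
    rw [mem_filter, mem_PU] at hP
    rw [← sum_filter, sum_const, nsmul_eq_mul]
    have h3 := hAd P hP.1.1 hP.1.2.1 hP.1.2.2
    have hqP : (0 : ℝ) < q ^ P.natDegree := by positivity
    have h4 : ((A.filter (fun s => P ∣ s)).card : ℝ) ≤ C₀ * A.card * wt K P.natDegree := by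
      rw [wt, ← hqd, ← div_eq_mul_inv, le_div_iff₀ hqP]
      exact h3
    have h5 : 0 ≤ q ^ L * wt K P.natDegree := by
      have := wt_nonneg (k := K) P.natDegree
      positivity
    calc ((A.filter (fun s => P ∣ s)).card : ℝ) * (q ^ L * wt K P.natDegree)
        ≤ (C₀ * A.card * wt K P.natDegree) * (q ^ L * wt K P.natDegree) :=
          mul_le_mul_of_nonneg_right h4 h5
      _ = _ := by ring
  refine (sum_le_sum h2).trans ?_
  rw [← mul_sum]
  exact mul_le_mul_of_nonneg_left (large_sum z (L / 8)) (by positivity)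

/-- **T1W.** -/
theorem t1W (hw : S_wbQ) (hr : S_rtQ) (hsw : S_sw) (hv : S_vl) : S_t1W := by
  intro K _ _ _ lam C₀ hlam hC₀
  have hq := q_ge (k := K)
  set q : ℝ := (Fintype.card K : ℝ) with hqd
  obtain ⟨cv, hcv, hV⟩ := hv K
  -- the level of the sieve
  obtain ⟨z, hz1, hz2⟩ : ∃ z : ℕ, 1 ≤ z ∧ C₀ * wt K z ≤ cv / (8 * z) := by
    obtain ⟨z, hz⟩ := exists_nat_ge (8 * (8 * C₀ / cv) / 1 ^ 2)
    refine ⟨z + 1, by omega, ?_⟩
    have h1 := lin_le_rpow (q := q) (b := 1) (C := 8 * C₀ / cv) hq one_pos (z + 1)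
      (hz.trans (by push_cast; linarith))
    rw [one_mul, Real.rpow_natCast] at h1
    have h2 : (0 : ℝ) < ((z + 1 : ℕ) : ℝ) := by positivity
    have h3 : 0 < q ^ (z + 1) := by positivity
    rw [wt, ← hqd, ← div_eq_mul_inv, div_le_div_iff₀ h3 (by positivity)]
    have h4 : cv * (8 * C₀ / cv * ((z + 1 : ℕ) : ℝ)) = C₀ * (8 * ((z + 1 : ℕ) : ℝ)) := by
      field_simp
    have h5 := mul_le_mul_of_nonneg_left h1 hcv.le
    rw [h4] at h5
    exact h5
  obtain ⟨κ, hκ, n₁, hW⟩ := winQ hw hr hsw hv K lam hlam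
  have hz0 : (0 : ℝ) < z := by exact_mod_cast hz1
  refine ⟨cv / (8 * z), by positivity, max n₁ (⌈z / κ⌉₊ + 1), ?_⟩
  intro n hn N w L Q A G σ hL hWA hAd hσ
  obtain ⟨hp1, hp2, hQ, hQs, hQw, hWs⟩ := hWA
  have hn1 : n₁ ≤ n := (le_max_left _ _).trans hn
  have hn3 : ⌈z / κ⌉₊ + 1 ≤ n := (le_max_right _ _).trans hn
  have hzn : (z : ℝ) ≤ κ * n := by
    have h1 : (z : ℝ) / κ ≤ n := (Nat.le_ceil _).trans (by exact_mod_cast (by omega :
      ⌈(z : ℝ) / κ⌉₊ ≤ n))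
    rw [div_le_iff₀ hκ] at h1
    linarith
  have hFs : ∀ s : K[X], ∃ F : K[X], s ∈ A →
      F.Monic ∧ F.natDegree = n ∧ derivative (Q * F) = s ^ 2 ∧
        ∀ t : K[X], t.degree < (L : WithBot ℕ) → F + Q * t ^ 2 ∈ G := by
    intro s
    by_cases h1 : s ∈ A
    · obtain ⟨-, -, -, -, -, F, hF⟩ := hWs s h1
      exact ⟨F, fun _ => hF⟩
    · exact ⟨0, fun h2 => absurd h2 h1⟩
  choose Fs hFs using hFs
  have hcnt := cntQ (z := z) (A := A) (G := G) (L := L) Fs σ hQ.ne_zero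
    (fun s hs => ⟨(hFs s hs).2.2.1, (hFs s hs).2.2.2⟩)
  have hnsq := nsqQ (z := z) hr hC₀.le Fs
    (fun s hs => ⟨(hWs s hs).2.2.2.1, (hWs s hs).2.2.2.2.1⟩) hAd
    (fun s hs1 t ht => by
      have hF := hFs s hs1
      have h1 := deg_mt hQ.ne_zero hQw (mem_Pn.1 ht)
      have h2 : (Q * t ^ 2).degree < (Fs s).degree := by
        rw [degree_eq_natDegree hF.1.ne_zero, hF.2.1]
        exact h1.trans_le (by exact_mod_cast (by omega : w + 2 * L ≤ n))
      exact (hF.1.add_of_left h2).ne_zero) (fun s hs1 => (hFs s hs1).2.2.1)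
  have hV0 := VQ_pos K Q z
  have hone : ∀ s ∈ A,
      5 / 16 * (VQ K Q z * q ^ L) -
        (((Sf Q (Fs s) L z).filter (fun t => mob (Fs s + Q * t ^ 2) = 0)).card : ℝ) / 2 ≤
        (((Sf Q (Fs s) L z).filter (fun t => mob (Fs s + Q * t ^ 2) = σ)).card : ℝ) := by
    intro s hs1
    obtain ⟨a1, a2, a3, a4, a5, -⟩ := hWs s hs1
    have hF1 := hFs s hs1
    have h1 := hW n hn1 z hz1 hzn N w L Q s (Fs s) hp1 hL hp2 hQ hQs hQw
      a1 a2 a3 a4 a5 hF1.1 hF1.2.1 hF1.2.2.1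
    refine one_sign hσ ?_ ?_
    · rw [← mul_assoc]
      exact h1.1
    · rw [← mul_assoc]
      exact h1.2
  have h1 := sum_le_sum hone
  rw [sum_sub_distrib, sum_const, nsmul_eq_mul, ← sum_div] at h1
  have h3 : (∑ s ∈ A,
      (((Sf Q (Fs s) L z).filter (fun t => mob (Fs s + Q * t ^ 2) = σ)).card : ℝ)) ≤
      (G.filter (fun f => mob f = σ)).card := by
    exact_mod_cast hcnt
  have h4 : cv / z ≤ VQ K Q z := (hV z hz1).trans (Vp_le_VQ K Q z)
  have h5 : (0 : ℝ) < q ^ L := by positivity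
  have h6 : (0 : ℝ) ≤ A.card := Nat.cast_nonneg _
  have h9 : (A.card : ℝ) * q ^ L * (C₀ * wt K z) ≤ A.card * q ^ L * (cv / (8 * z)) :=
    mul_le_mul_of_nonneg_left hz2 (by positivity)
  have h10 : (A.card : ℝ) * (5 / 16 * (cv / z * q ^ L)) ≤
      (A.card : ℝ) * (5 / 16 * (VQ K Q z * q ^ L)) := by
    gcongr
  have h11 : (A.card : ℝ) * (5 / 16 * (cv / z * q ^ L)) =
      5 / 2 * (A.card * q ^ L * (cv / (8 * z))) := by
    field_simp
    ring
  have h12 : C₀ * A.card * q ^ L * wt K z = A.card * q ^ L * (C₀ * wt K z) := by ring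
  have h13 : cv / (8 * z) * A.card * q ^ L = A.card * q ^ L * (cv / (8 * z)) := by ring
  have h14 : 0 ≤ (A.card : ℝ) * q ^ L * (cv / (8 * z)) := by positivity
  rw [h12] at hnsq
  rw [h11] at h10
  rw [h13]
  linarith

end Pool.Agent.H721.AR
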